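import Pool.Agent.H648.Q.Defs
import Pool.Graph.R_seed8.W78.GA.SC

/-!
Project Q648 (helper648), task B1 (helper263): the `T`-inequality for the elements prime to `e`.
-/

set_option autoImplicit false

namespace Pool.Agent.H263.Q648

open Finset Filter
open Pool.Agent.H376R2.MR (FK Fj lam)
open Pool.Agent.W78.GA
open Pool.Agent.W78.GS (Pm)
open Pool.Agent.H648.Q (UU GU FS S_TIN)

section general

variable {g : ℕ → ℤ} {t c : ℤ}

/-- the sum over pairs of different signs in terms of the polynomials -/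
lemma rsum_eq (hg : Pm g) (hD : t ^ 2 < 4 * c) (s : Finset (Qd t c)) (hs0 : ∀ z ∈ s, z ≠ 0)
    (Y : ℝ) {u : Qd t c} (hu : u ≠ 0) (K : ℕ) :
    ∑ z ∈ s, ∑ z' ∈ s,
      bg Y z * bg Y z' * (1 - (g (nm z) : ℝ) * (g (nm (u * z')) : ℝ)) *
        Fj K (ang z - ang (u * z')) =
    ∑ k ∈ FK K, (1 - |(k : ℝ)| / K) * ((ps k u).re *
      (‖DPG s (fun z => (bg Y z : ℂ)) k‖ ^ 2 -
        (g (nm u) : ℝ) * ‖DPG s (fun z => (g (nm z) : ℂ) * (bg Y z : ℂ)) k‖ ^ 2)) := by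
  have h1 := dsum_eq hD s hs0 (bg Y) (bg Y) hu K
  have h2 := dsum_eq hD s hs0 (fun z => (g (nm z) : ℝ) * bg Y z)
    (fun z => (g (nm z) : ℝ) * bg Y z) hu K
  have h3 : ∑ z ∈ s, ∑ z' ∈ s,
      bg Y z * bg Y z' * (1 - (g (nm z) : ℝ) * (g (nm (u * z')) : ℝ)) *
        Fj K (ang z - ang (u * z')) =
      ∑ z ∈ s, ∑ z' ∈ s, bg Y z * bg Y z' * Fj K (ang z - ang (u * z')) -
      (g (nm u) : ℝ) * ∑ z ∈ s, ∑ z' ∈ s, ((g (nm z) : ℝ) * bg Y z) *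
        ((g (nm z') : ℝ) * bg Y z') * Fj K (ang z - ang (u * z')) := by
    rw [mul_sum, ← sum_sub_distrib]
    refine sum_congr rfl fun z hz => ?_
    rw [mul_sum, ← sum_sub_distrib]
    refine sum_congr rfl fun z' hz' => ?_
    rw [hg.nm_mul (nm_pos hD hu).ne' (nm_pos hD (hs0 z' hz')).ne']
    push_cast
    ring
  rw [h3, h1, h2, mul_sum, ← sum_sub_distrib]
  refine sum_congr rfl fun k _ => ?_
  have h4 : ∀ D : ℂ, (D * (starRingEnd ℂ) D * (starRingEnd ℂ) (ps k u)).re =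
      (ps k u).re * ‖D‖ ^ 2 := by
    intro D
    rw [Complex.mul_conj, Complex.normSq_eq_norm_sq, Complex.re_ofReal_mul, Complex.conj_re]
    ring
  have h5 : DPG s (fun z => (((g (nm z) : ℝ) * bg Y z : ℝ) : ℂ)) k =
      DPG s (fun z => (g (nm z) : ℂ) * (bg Y z : ℂ)) k := by
    congr 1
    funext z
    push_cast
    rfl
  rw [h4, h4, h5]
  ring

lemma rsum_le (hg : Pm g) (hD : t ^ 2 < 4 * c) (s : Finset (Qd t c)) (hs0 : ∀ z ∈ s, z ≠ 0)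
    {Y : ℝ} (hY : 0 < Y) (u : Qd t c) (K : ℕ) :
    ∑ z ∈ s, ∑ z' ∈ s,
      bg Y z * bg Y z' * (1 - (g (nm z) : ℝ) * (g (nm (u * z')) : ℝ)) *
        Fj K (ang z - ang (u * z')) ≤
    2 * (Real.exp 1 / Y) ^ 2 * (open scoped Classical in
    ∑ z ∈ s, ∑ z' ∈ s,
      (if g (nm z) ≠ g (nm (u * z')) then Fj K (ang z - ang (u * z')) else 0)) := by
  classical
  rw [mul_sum]
  refine sum_le_sum fun z hz => ?_
  rw [mul_sum]
  refine sum_le_sum fun z' hz' => ?_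
  have hF := Pool.Agent.H376R2.MR.Fj_nonneg K (ang z - ang (u * z'))
  have ha := bg_le' hD hY (hs0 z hz)
  have hb := bg_le' hD hY (hs0 z' hz')
  have ha0 := bg_nonneg Y z
  have hb0 := bg_nonneg Y z'
  have hab : bg Y z * bg Y z' ≤ (Real.exp 1 / Y) ^ 2 := by
    rw [pow_two]
    exact mul_le_mul ha hb hb0 (ha0.trans ha)
  have hab0 : 0 ≤ bg Y z * bg Y z' := mul_nonneg ha0 hb0
  have hgz : g (nm z) = 1 ∨ g (nm z) = -1 := hg.val _
  have hgu' : g (nm (u * z')) = 1 ∨ g (nm (u * z')) = -1 := hg.val _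
  have hsame : g (nm z) = g (nm (u * z')) →
      bg Y z * bg Y z' * (1 - (g (nm z) : ℝ) * (g (nm (u * z')) : ℝ)) *
      Fj K (ang z - ang (u * z')) = 0 := by
    intro h
    rw [h]
    have : (g (nm (u * z')) : ℝ) * (g (nm (u * z')) : ℝ) = 1 := by
      rcases hgu' with h | h <;> rw [h] <;> norm_num
    rw [this]; ring
  by_cases h : g (nm z) ≠ g (nm (u * z'))
  · rw [if_pos h]
    have : (g (nm z) : ℝ) * (g (nm (u * z')) : ℝ) = -1 := by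
      rcases hgz with h1 | h1 <;> rcases hgu' with h2 | h2
      · exact absurd (h1.trans h2.symm) h
      · rw [h1, h2]; norm_num
      · rw [h1, h2]; norm_num
      · exact absurd (h1.trans h2.symm) h
    rw [this]
    have := mul_le_mul_of_nonneg_right hab hF
    nlinarith
  · rw [if_neg h, hsame (not_not.1 h)]
    simp

lemma low_bound (hg : Pm g) (s : Finset (Qd t c)) (Y : ℝ) {u₀ : Qd t c}
    (hgu : g (nm u₀) = -1) {K : ℕ} (hKn : 1 ≤ K) :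
    2 * ‖DPG s (fun z => (bg Y z : ℂ)) 0‖ ^ 2 ≤
      ∑ k ∈ FK K, (1 - |(k : ℝ)| / K) * ((ps k (1 : Qd t c)).re *
      (‖DPG s (fun z => (bg Y z : ℂ)) k‖ ^ 2 - (g (nm (1 : Qd t c)) : ℝ) *
        ‖DPG s (fun z => (g (nm z) : ℂ) * (bg Y z : ℂ)) k‖ ^ 2)) +
      ∑ k ∈ FK K, (1 - |(k : ℝ)| / K) * ((ps k u₀).re *
      (‖DPG s (fun z => (bg Y z : ℂ)) k‖ ^ 2 - (g (nm u₀) : ℝ) *
        ‖DPG s (fun z => (g (nm z) : ℂ) * (bg Y z : ℂ)) k‖ ^ 2)) +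
      2 * ∑ k ∈ (FK K).erase 0,
        ‖DPG s (fun z => (g (nm z) : ℂ) * (bg Y z : ℂ)) k‖ ^ 2 := by
  have hKpos : (0 : ℝ) < K := by exact_mod_cast hKn
  set A : ℤ → ℂ := DPG s (fun z => (bg Y z : ℂ)) with hAdef
  set G : ℤ → ℂ := DPG s (fun z => (g (nm z) : ℂ) * (bg Y z : ℂ)) with hGdef
  rw [← sum_add_distrib]
  have h0 : (0 : ℤ) ∈ FK K := by
    rw [FK, Finset.mem_Ioo]
    omega
  rw [← Finset.add_sum_erase _ _ h0, mul_sum, add_assoc, ← sum_add_distrib]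
  have h1 : (1 - |((0 : ℤ) : ℝ)| / K) * ((ps 0 (1 : Qd t c)).re *
    (‖A 0‖ ^ 2 - (g (nm (1 : Qd t c)) : ℝ) * ‖G 0‖ ^ 2)) +
    (1 - |((0 : ℤ) : ℝ)| / K) * ((ps 0 u₀).re *
    (‖A 0‖ ^ 2 - (g (nm u₀) : ℝ) * ‖G 0‖ ^ 2)) = 2 * ‖A 0‖ ^ 2 := by
    rw [nm_one, hg.one, hgu, ps_zero, ps_zero]
    simp
    ring
  rw [h1]
  refine le_add_of_nonneg_right (sum_nonneg fun k hk => ?_)
  rw [mem_erase, FK, Finset.mem_Ioo] at hk
  have hw0 : 0 ≤ 1 - |(k : ℝ)| / K := by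
    rw [sub_nonneg, div_le_one hKpos]
    rw [abs_le]
    constructor
    · have : ((-(K : ℤ) : ℤ) : ℝ) < (k : ℝ) := by exact_mod_cast hk.2.1
      push_cast at this
      linarith
    · have : (k : ℝ) < ((K : ℤ) : ℝ) := by exact_mod_cast hk.2.2
      push_cast at this
      linarith
  have hw1 : 1 - |(k : ℝ)| / K ≤ 1 := by
    have : 0 ≤ |(k : ℝ)| / K := by positivity
    linarith
  have hps1 : ps k (1 : Qd t c) = 1 := by
    have := ps_natCast (t := t) (c := c) (n := 1) one_pos k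
    simpa using this
  have hc1 : (ps k u₀).re ≤ 1 := by
    have := (Complex.abs_re_le_norm (ps k u₀)).trans (norm_ps_le _ k)
    exact (abs_le.1 this).2
  have hc2 : -1 ≤ (ps k u₀).re := by
    have := (Complex.abs_re_le_norm (ps k u₀)).trans (norm_ps_le _ k)
    exact (abs_le.1 this).1
  rw [nm_one, hg.one, hgu, hps1]
  push_cast
  rw [Complex.one_re]
  set γ := (ps k u₀).re
  set W := 1 - |(k : ℝ)| / K
  have hA : 0 ≤ ‖A k‖ ^ 2 := by positivity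
  have hB : 0 ≤ ‖G k‖ ^ 2 := by positivity
  have e : W * (1 * (‖A k‖ ^ 2 - 1 * ‖G k‖ ^ 2)) +
      W * (γ * (‖A k‖ ^ 2 - -1 * ‖G k‖ ^ 2)) + 2 * ‖G k‖ ^ 2 =
      W * (1 + γ) * ‖A k‖ ^ 2 + (W * (1 + γ) + 2 * (1 - W)) * ‖G k‖ ^ 2 := by
    ring
  rw [e]
  have : 0 ≤ W * (1 + γ) := mul_nonneg hw0 (by linarith)
  have : 0 ≤ W * (1 + γ) + 2 * (1 - W) := by linarith
  positivity

end general

/-- B1: the `T`-inequality -/
theorem tin_of {g : ℕ → ℤ} {b m : ℤ} (hg : Pm g) (hD : b ^ 2 < 4 * m) : S_TIN g b m := by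
  classical
  intro L e u₀ hL hu₀ hgu Y K hY hK
  have hL' : (0 : ℤ) < (L : ℤ) ^ 2 := by positivity
  have hDL : (b * L) ^ 2 < 4 * (m * (L : ℤ) ^ 2) := by
    have := mul_lt_mul_of_pos_right hD hL'
    calc (b * (L : ℤ)) ^ 2 = b ^ 2 * (L : ℤ) ^ 2 := by ring
      _ < 4 * m * (L : ℤ) ^ 2 := this
      _ = 4 * (m * (L : ℤ) ^ 2) := by ring
  have hs0 : ∀ z ∈ UU b m L e (Real.exp 1 * Y), z ≠ 0 := by
    intro z hz
    unfold UU at hz
    exact pball_ne hDL (mem_filter.1 hz).1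
  have h10 : (1 : Qd (b * L) (m * (L : ℤ) ^ 2)) ≠ 0 := by
    rw [← one_le_nm hDL, nm_one]
  have hlow := low_bound hg (UU b m L e (Real.exp 1 * Y)) Y hgu hK
  rw [← rsum_eq hg hDL _ hs0 Y h10 K, ← rsum_eq hg hDL _ hs0 Y hu₀ K] at hlow
  have hr1 := rsum_le hg hDL _ hs0 hY (1 : Qd (b * L) (m * (L : ℤ) ^ 2)) K
  have hr2 := rsum_le hg hDL _ hs0 hY u₀ K
  have hA0 : ‖DPG (UU b m L e (Real.exp 1 * Y)) (fun z => (bg Y z : ℂ)) 0‖ ^ 2 =
      (∑ z ∈ UU b m L e (Real.exp 1 * Y), bg Y z) ^ 2 := by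
    have h1 : DPG (UU b m L e (Real.exp 1 * Y)) (fun z => (bg Y z : ℂ)) 0 =
        ((∑ z ∈ UU b m L e (Real.exp 1 * Y), bg Y z : ℝ) : ℂ) := by
      unfold DPG
      simp
    rw [h1, Complex.norm_real, Real.norm_eq_abs, sq_abs]
  rw [hA0] at hlow
  unfold FS GU
  have hr1' := hr1
  have hr2' := hr2
  have hfin : 2 * (∑ z ∈ UU b m L e (Real.exp 1 * Y), bg Y z) ^ 2 ≤ 2 *
      ((Real.exp 1 / Y) ^ 2 * ((∑ z ∈ UU b m L e (Real.exp 1 * Y),
        ∑ z' ∈ UU b m L e (Real.exp 1 * Y),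
        (if g (nm z) ≠ g (nm (1 * z')) then Fj K (ang z - ang (1 * z')) else 0)) +
        (∑ z ∈ UU b m L e (Real.exp 1 * Y), ∑ z' ∈ UU b m L e (Real.exp 1 * Y),
        (if g (nm z) ≠ g (nm (u₀ * z')) then Fj K (ang z - ang (u₀ * z')) else 0))) +
      ∑ k ∈ (FK K).erase 0, ‖DPG (UU b m L e (Real.exp 1 * Y))
        (fun z => (g (nm z) : ℂ) * (bg Y z : ℂ)) k‖ ^ 2) := by
    refine hlow.trans ?_
    refine (add_le_add_left (add_le_add hr1' hr2') _).trans (le_of_eq ?_)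
    ring
  linarith
end Pool.Agent.H263.Q648
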